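import Mathlib

set_option autoImplicit false

namespace Pool.Agent.Lib.MP_a0087d_lc

open Encodable Denumerable

section general

variable {α β σ : Type} [Primcodable α] [Primcodable β] [Primcodable σ]

theorem cp_comp {p : β → Prop} {f : α → β} (hp : ComputablePred p) (hf : Computable f) :
    ComputablePred fun a => p (f a) := by
  classical
  exact Computable.computablePred (hp.decide.comp hf)

theorem cp_and {p q : α → Prop} (hp : ComputablePred p) (hq : ComputablePred q) :
    ComputablePred fun a => p a ∧ q a := by
  classical
  refine Computable.computablePred ?_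
  exact (Primrec.and.to_comp.comp hp.decide hq.decide).of_eq fun a => by simp

theorem cp_or {p q : α → Prop} (hp : ComputablePred p) (hq : ComputablePred q) :
    ComputablePred fun a => p a ∨ q a := by
  classical
  refine Computable.computablePred ?_
  exact (Primrec.or.to_comp.comp hp.decide hq.decide).of_eq fun a => by simp

theorem cp_not {p : α → Prop} (hp : ComputablePred p) : ComputablePred fun a => ¬ p a :=
  hp.not

theorem cp_lt {f g : α → ℕ} (hf : Computable f) (hg : Computable g) :
    ComputablePred fun a => f a < g a :=
  cp_comp (p := fun q : ℕ × ℕ => q.1 < q.2) (PrimrecPred.computablePred Primrec.nat_lt) (hf.pair hg)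

theorem cp_le {f g : α → ℕ} (hf : Computable f) (hg : Computable g) :
    ComputablePred fun a => f a ≤ g a :=
  cp_comp (p := fun q : ℕ × ℕ => q.1 ≤ q.2) (PrimrecPred.computablePred Primrec.nat_le) (hf.pair hg)

theorem cp_eq {f g : α → β} (hf : Computable f) (hg : Computable g) :
    ComputablePred fun a => f a = g a :=
  cp_comp (p := fun q : β × β => q.1 = q.2) (PrimrecPred.computablePred Primrec.eq) (hf.pair hg)

theorem c_ite {p : α → Prop} [DecidablePred p] {f g : α → σ} (hp : ComputablePred p)
    (hf : Computable f) (hg : Computable g) : Computable fun a => if p a then f a else g a :=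
  (Computable.cond hp.decide hf hg).of_eq fun a => by by_cases h : p a <;> simp [h]

theorem c_foldl {f : α → List β} {g : α → σ} {h : α → σ × β → σ} (hf : Computable f)
    (hg : Computable g) (hh : Computable₂ h) :
    Computable fun a => (f a).foldl (fun s b => h a (s, b)) (g a) := by
  let step : α → ℕ × σ → σ := fun a p =>
    Option.casesOn ((f a)[p.1]?) p.2 fun b => h a (p.2, b)
  have hstep : Computable₂ step := by
    refine Computable.option_casesOn
      (Computable.list_getElem?.comp (hf.comp Computable.fst) (Computable.fst.comp Computable.snd))
      (Computable.snd.comp Computable.snd) ?_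
    exact (hh.comp (Computable.fst.comp Computable.fst)
      ((Computable.snd.comp (Computable.snd.comp Computable.fst)).pair Computable.snd)).to₂
  have h1 := Computable.nat_rec (Computable.list_length.comp hf) hg hstep
  refine h1.of_eq fun a => ?_
  have key : ∀ n : ℕ, n ≤ (f a).length →
      (Nat.rec (g a) (fun y IH => step a (y, IH)) n : σ) =
        ((f a).take n).foldl (fun s b => h a (s, b)) (g a) := by
    intro n
    induction n with
    | zero => simp
    | succ n ih =>
      intro hn
      have hn' : n < (f a).length := hn
      rw [List.take_add_one, List.foldl_append, ← ih hn'.le]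
      simp [step, List.getElem?_eq_getElem hn']
  simpa using key _ le_rfl

theorem c_foldr {f : α → List β} {g : α → σ} {h : α → β × σ → σ} (hf : Computable f)
    (hg : Computable g) (hh : Computable₂ h) :
    Computable fun a => (f a).foldr (fun b s => h a (b, s)) (g a) := by
  have := c_foldl (h := fun a p => h a (p.2, p.1)) (Computable.list_reverse.comp hf) hg
    (hh.comp Computable.fst
      ((Computable.snd.comp Computable.snd).pair (Computable.fst.comp Computable.snd))).to₂
  exact this.of_eq fun a => by simp [List.foldl_reverse]

theorem c_map {f : α → List β} {g : α → β → σ} (hf : Computable f) (hg : Computable₂ g) :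
    Computable fun a => (f a).map (g a) := by
  have := c_foldr (h := fun a (p : β × List σ) => g a p.1 :: p.2) hf (Computable.const [])
    (Computable.list_cons.comp (hg.comp Computable.fst (Computable.fst.comp Computable.snd))
      (Computable.snd.comp Computable.snd)).to₂
  refine this.of_eq fun a => ?_
  induction f a with
  | nil => rfl
  | cons b l ih => simp [ih]

theorem c_filter {f : α → List β} {p : α → β → Prop} [∀ a, DecidablePred (p a)]
    (hf : Computable f) (hp : ComputablePred fun q : α × β => p q.1 q.2) :
    Computable fun a => (f a).filter fun b => decide (p a b) := by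
  have := c_foldr (h := fun a (q : β × List β) => if p a q.1 then q.1 :: q.2 else q.2) hf
    (Computable.const [])
    (c_ite (p := fun x : α × β × List β => p x.1 x.2.1)
      (cp_comp hp (Computable.fst.pair (Computable.fst.comp Computable.snd)))
      (Computable.list_cons.comp (Computable.fst.comp Computable.snd)
        (Computable.snd.comp Computable.snd))
      (Computable.snd.comp Computable.snd)).to₂
  refine this.of_eq fun a => ?_
  induction f a with
  | nil => rfl
  | cons b l ih =>
    by_cases h : p a b <;> simp [h, ih]

theorem cp_exists_mem {f : α → List β} {p : α → β → Prop}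
    (hf : Computable f) (hp : ComputablePred fun q : α × β => p q.1 q.2) :
    ComputablePred fun a => ∃ b ∈ f a, p a b := by
  classical
  have h1 := Computable.list_length.comp (c_filter hf hp)
  refine (cp_lt (Computable.const 0) h1).of_eq fun a => ?_
  simp [List.length_pos_iff_exists_mem]

theorem cp_exists_lt {f : α → ℕ} {p : α → ℕ → Prop}
    (hf : Computable f) (hp : ComputablePred fun q : α × ℕ => p q.1 q.2) :
    ComputablePred fun a => ∃ b < f a, p a b :=
  (cp_exists_mem (Primrec.list_range.to_comp.comp hf) hp).of_eq fun a => by simp

theorem cp_forall_lt {f : α → ℕ} {p : α → ℕ → Prop}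
    (hf : Computable f) (hp : ComputablePred fun q : α × ℕ => p q.1 q.2) :
    ComputablePred fun a => ∀ b < f a, p a b :=
  (cp_not (cp_exists_lt (p := fun a b => ¬ p a b) hf (cp_not hp))).of_eq fun a => by simp

theorem cp_mem {f : α → β} {l : α → List β} (hf : Computable f) (hl : Computable l) :
    ComputablePred fun a => f a ∈ l a :=
  (cp_exists_mem (p := fun a b => f a = b) hl
    (cp_eq (hf.comp Computable.fst) Computable.snd)).of_eq fun a => by simp

theorem re_exists {p : α → ℕ → Prop} (hp : ComputablePred fun q : α × ℕ => p q.1 q.2) :
    REPred fun a => ∃ n, p a n := by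
  classical
  have h1 : Partrec fun a => Nat.rfind fun n => (Part.some (decide (p a n)) : Part Bool) :=
    Partrec.rfind (p := fun a n => (Part.some (decide (p a n)) : Part Bool))
      (Computable₂.partrec₂ (f := fun a n => decide (p a n)) hp.decide)
  refine h1.dom_re.of_eq fun a => ?_
  rw [Nat.rfind_dom]
  simp

theorem re_comp {p : β → Prop} {f : α → β} (hp : REPred p) (hf : Computable f) :
    REPred fun a => p (f a) :=
  Partrec.comp hp hf

/-- stage approximation of the `e`-th c.e. set -/
def Wst (e s y : ℕ) : Prop :=
  (Nat.Partrec.Code.evaln s (ofNat Nat.Partrec.Code e) y).isSome = true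

instance (e s y : ℕ) : Decidable (Wst e s y) := by unfold Wst; infer_instance

theorem Wst_mono {e s t y : ℕ} (h : s ≤ t) (hy : Wst e s y) : Wst e t y := by
  unfold Wst at *
  obtain ⟨x, hx⟩ := Option.isSome_iff_exists.1 hy
  exact Option.isSome_iff_exists.2 ⟨x, Nat.Partrec.Code.evaln_mono h hx⟩

theorem cp_Wst {e s y : α → ℕ} (he : Computable e) (hs : Computable s) (hy : Computable y) :
    ComputablePred fun a => Wst (e a) (s a) (y a) := by
  have h1 : Computable fun a =>
      (Nat.Partrec.Code.evaln (s a) (ofNat Nat.Partrec.Code (e a)) (y a)).isSome :=
    Primrec.option_isSome.to_comp.comp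
      (Nat.Partrec.Code.primrec_evaln.to_comp.comp
        ((hs.pair ((Computable.ofNat _).comp he)).pair hy))
  exact cp_eq h1 (Computable.const true)

theorem re_index {p : α → Prop} (hp : REPred p) :
    ∃ e : ℕ, ∀ a, p a ↔ ∃ s, Wst e s (encode a) := by
  obtain ⟨c, hc⟩ := Nat.Partrec.Code.exists_code.1 hp
  refine ⟨encode c, fun a => ?_⟩
  have h1 : (c.eval (encode a)).Dom ↔ p a := by
    rw [hc]
    simp [Part.assert]
  rw [← h1, Part.dom_iff_mem]
  simp only [Nat.Partrec.Code.evaln_complete, Wst, ofNat_encode, Option.isSome_iff_exists]
  constructor
  · rintro ⟨x, k, hk⟩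
    exact ⟨k, x, hk⟩
  · rintro ⟨k, x, hk⟩
    exact ⟨x, k, hk⟩

end general

section span

variable {F V : Type} [Field F] [AddCommGroup V] [Module F V]

open Classical in
/-- greedy independent sublist -/
noncomputable def greedy (F : Type) [Field F] [Module F V] (l : List V) : List V :=
  l.foldr (fun v s => if LinearIndepOn F id {w | w ∈ v :: s} then v :: s else s) []

theorem mem_span_iff_of_indep {l : List V} (hl : LinearIndepOn F id {w | w ∈ l}) (v : V) :
    v ∈ Submodule.span F {w | w ∈ l} ↔ v ∈ l ∨ ¬ LinearIndepOn F id {w | w ∈ v :: l} := by
  have hset : {w | w ∈ v :: l} = insert v {w | w ∈ l} := by ext; simp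
  by_cases hv : v ∈ l
  · simp only [hv, true_or, iff_true]
    exact Submodule.subset_span hv
  · rw [hset, linearIndepOn_insert (by simpa using hv)]
    simp [hv, hl]

theorem greedy_spec (l : List V) :
    LinearIndepOn F id {w | w ∈ greedy F l} ∧
      Submodule.span F {w | w ∈ greedy F l} = Submodule.span F {w | w ∈ l} := by
  classical
  induction l with
  | nil => simp [greedy]
  | cons v l ih =>
    have hset : ∀ s : List V, {w | w ∈ v :: s} = insert v {w | w ∈ s} := by
      intro s; ext; simp
    have hg : greedy F (v :: l) =
        if LinearIndepOn F id {w | w ∈ v :: greedy F l} then v :: greedy F l else greedy F l := rfl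
    by_cases h : LinearIndepOn F id {w | w ∈ v :: greedy F l}
    · rw [hg, if_pos h]
      refine ⟨h, ?_⟩
      rw [hset, hset, Submodule.span_insert, Submodule.span_insert, ih.2]
    · rw [hg, if_neg h]
      refine ⟨ih.1, ?_⟩
      have hv : v ∈ Submodule.span F {w | w ∈ greedy F l} :=
        (mem_span_iff_of_indep ih.1 v).2 (Or.inr h)
      rw [hset, Submodule.span_insert_eq_span (ih.2 ▸ hv), ih.2]

theorem cp_mem_span [Primcodable V]
    (hdep : ComputablePred fun l : List V => LinearIndepOn F id {w | w ∈ l}) :
    ComputablePred fun q : V × List V => q.1 ∈ Submodule.span F {w | w ∈ q.2} := by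
  classical
  have hg : Computable (greedy F : List V → List V) := by
    have := c_foldr (f := fun l : List V => l) (g := fun _ => ([] : List V))
      (h := fun _ (q : V × List V) =>
        if LinearIndepOn F id {w | w ∈ q.1 :: q.2} then q.1 :: q.2 else q.2)
      Computable.id (Computable.const [])
      (c_ite (p := fun x : List V × V × List V => LinearIndepOn F id {w | w ∈ x.2.1 :: x.2.2})
        (cp_comp (f := fun x : List V × V × List V => x.2.1 :: x.2.2) hdep
          (Computable.list_cons.comp (Computable.fst.comp Computable.snd)
          (Computable.snd.comp Computable.snd)))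
        (Computable.list_cons.comp (Computable.fst.comp Computable.snd)
          (Computable.snd.comp Computable.snd))
        (Computable.snd.comp Computable.snd)).to₂
    exact this.of_eq fun l => by unfold greedy; congr
  have h1 := cp_or (cp_mem Computable.fst (hg.comp Computable.snd))
    (cp_not (cp_comp hdep (Computable.list_cons.comp Computable.fst (hg.comp Computable.snd))))
  refine h1.of_eq fun q => ?_
  rw [← (greedy_spec (F := F) q.2).2, mem_span_iff_of_indep (greedy_spec q.2).1]

end span

end Pool.Agent.Lib.MP_a0087d_lc
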