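import Pool.Agent.Lib.MP_a0087d_lc.Comp

set_option autoImplicit false

namespace Pool.Agent.Lib.MP_a0087d_lc

open Filter

/-- the binary `n`-state of `y` at stage `s` -/
def st (n y s : ℕ) : ℕ :=
  Nat.rec 0 (fun e a => 2 * a + if Wst e s y then 1 else 0) n

open Classical in
/-- the final `n`-state of `y` -/
noncomputable def stInf (n y : ℕ) : ℕ :=
  Nat.rec 0 (fun e a => 2 * a + if ∃ s, Wst e s y then 1 else 0) n

theorem st_zero (y s : ℕ) : st 0 y s = 0 := rfl

theorem st_succ (n y s : ℕ) : st (n + 1) y s = 2 * st n y s + if Wst n s y then 1 else 0 := rfl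

open Classical in
theorem stInf_succ (n y : ℕ) :
    stInf (n + 1) y = 2 * stInf n y + if ∃ s, Wst n s y then 1 else 0 := rfl

theorem st_lt (n y s : ℕ) : st n y s < 2 ^ n := by
  induction n with
  | zero => simp [st_zero]
  | succ n ih =>
    rw [st_succ, pow_succ]
    split_ifs <;> omega

theorem st_mono (n y : ℕ) {s t : ℕ} (h : s ≤ t) : st n y s ≤ st n y t := by
  induction n with
  | zero => simp [st_zero]
  | succ n ih =>
    rw [st_succ, st_succ]
    by_cases h1 : Wst n s y
    · rw [if_pos h1, if_pos (Wst_mono h h1)]; omega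
    · rw [if_neg h1]; split_ifs <;> omega

theorem st_lt_of_lt {n m y z s : ℕ} (h : n ≤ m) (hlt : st n y s < st n z s) :
    st m y s < st m z s := by
  induction m, h using Nat.le_induction with
  | base => exact hlt
  | succ m _ ih =>
    rw [st_succ, st_succ]
    split_ifs <;> omega

theorem st_le_of_le {n m y z s : ℕ} (h : n ≤ m) (hle : st m y s ≤ st m z s) :
    st n y s ≤ st n z s := by
  by_contra hc
  have := st_lt_of_lt h (not_le.1 hc)
  omega

theorem st_ev (n y : ℕ) : ∀ᶠ s in atTop, st n y s = stInf n y := by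
  induction n with
  | zero => exact Eventually.of_forall fun _ => rfl
  | succ n ih =>
    by_cases h : ∃ s, Wst n s y
    · obtain ⟨s0, hs0⟩ := id h
      filter_upwards [ih, eventually_ge_atTop s0] with s hs hs'
      rw [st_succ, stInf_succ, hs, if_pos h, if_pos (Wst_mono hs' hs0)]
    · filter_upwards [ih] with s hs
      rw [st_succ, stInf_succ, hs, if_neg h, if_neg (fun h' => h ⟨s, h'⟩)]

theorem stInf_lt (n y : ℕ) : stInf n y < 2 ^ n := by
  obtain ⟨s, hs⟩ := (st_ev n y).exists
  rw [← hs]; exact st_lt _ _ _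

/-- `y` occurs in the history -/
def dumped (H : List (ℕ × ℕ)) (y : ℕ) : Prop := ∃ p ∈ H, p.1 = y

/-- restraint step -/
def gfun (H : List (ℕ × ℕ)) (x : ℕ) : ℕ :=
  H.foldr (fun p a => if p.1 < x then max (p.2 + 1) a else a) x

theorem gfun_cons (p : ℕ × ℕ) (H : List (ℕ × ℕ)) (x : ℕ) :
    gfun (p :: H) x = if p.1 < x then max (p.2 + 1) (gfun H x) else gfun H x := rfl

theorem le_gfun (H : List (ℕ × ℕ)) (x : ℕ) : x ≤ gfun H x := by
  induction H with
  | nil => exact le_rfl
  | cons p H ih => rw [gfun_cons]; split_ifs <;> omega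

theorem mem_le_gfun {H : List (ℕ × ℕ)} {x : ℕ} {p : ℕ × ℕ} (hp : p ∈ H) (h : p.1 < x) :
    p.2 + 1 ≤ gfun H x := by
  induction H with
  | nil => simp at hp
  | cons q H ih =>
    rw [gfun_cons]
    rcases List.mem_cons.1 hp with rfl | hp
    · rw [if_pos h]; omega
    · have := ih hp
      split_ifs <;> omega

theorem gfun_le {H : List (ℕ × ℕ)} {x B : ℕ} (hx : x ≤ B)
    (h : ∀ p ∈ H, p.1 < x → p.2 + 1 ≤ B) : gfun H x ≤ B := by
  induction H with
  | nil => exact hx
  | cons q H ih =>
    rw [gfun_cons]
    have h1 := ih fun p hp => h p (List.mem_cons_of_mem _ hp)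
    split_ifs with hq
    · have := h q List.mem_cons_self hq
      omega
    · exact h1

theorem gfun_mono {H H' : List (ℕ × ℕ)} {x x' : ℕ} (hH : ∀ p ∈ H, p ∈ H') (hx : x ≤ x') :
    gfun H x ≤ gfun H' x' :=
  gfun_le (hx.trans (le_gfun _ _)) fun p hp h => mem_le_gfun (hH p hp) (h.trans_le hx)

theorem gfun_iter_mono {H H' : List (ℕ × ℕ)} (hH : ∀ p ∈ H, p ∈ H') (j : ℕ) {x x' : ℕ}
    (hx : x ≤ x') : (gfun H)^[j] x ≤ (gfun H')^[j] x' := by
  induction j with
  | zero => exact hx
  | succ j ih =>
    rw [Function.iterate_succ_apply', Function.iterate_succ_apply']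
    exact gfun_mono hH ih

theorem gfun_iter_le (H : List (ℕ × ℕ)) {i j : ℕ} (h : i ≤ j) (x : ℕ) :
    (gfun H)^[i] x ≤ (gfun H)^[j] x := by
  induction j, h using Nat.le_induction with
  | base => exact le_rfl
  | succ j _ ih =>
    rw [Function.iterate_succ_apply']
    exact ih.trans (le_gfun _ _)

section defs

variable (F : Type) {V : Type} [Field F] [AddCommGroup V] [Module F V]
variable (β : ℕ → V) (μ : ℕ → List V)

/-- stage approximation of the subspace -/
def Ms (s : ℕ) : Submodule F V := Submodule.span F {w | w ∈ μ s}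

/-- span of an initial segment -/
def Vlt (N : ℕ) : Submodule F V := Submodule.span F (β '' {z | z < N})

/-- span of the selected vectors below `s`, over the stage approximation -/
def sp (s : ℕ) (P : ℕ → Prop) : Submodule F V :=
  Submodule.span F (β '' {z | z < s ∧ P z}) ⊔ Ms F μ s

open Classical in
/-- base restraint -/
noncomputable def R0 (k s : ℕ) : ℕ :=
  Nat.rec 0 (fun t r => if ∀ i < r, β i ∈ sp F β μ t (fun z => z < k) then t + 1 else r) s

/-- `y` may be dumped at stage `s` on level `n` -/
def Elig (H : List (ℕ × ℕ)) (s y n : ℕ) : Prop :=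
  ¬ dumped H y ∧ (∀ k < n, (gfun H)^[2 ^ k] (R0 F β μ k s) ≤ y) ∧
    β y ∈ sp F β μ s (fun z => z < n ∨ (¬ dumped H z ∧ st n y s < st n z s)) ∧
    β y ∈ sp F β μ s (fun z => ¬ dumped H z ∧
      (st n y s < st n z s ∨ (st n y s = st n z s ∧ z < y)))

/-- `y` may be dumped at stage `s` -/
def El (H : List (ℕ × ℕ)) (s y : ℕ) : Prop := ∃ n < y + 1, Elig F β μ H s y n

open Classical in
/-- one stage of the construction -/
noncomputable def step (s : ℕ) (H : List (ℕ × ℕ)) : List (ℕ × ℕ) :=
  Option.casesOn (((List.range s).filter fun y => decide (El F β μ H s y)).head?) H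
    fun y => (y, s) :: H

/-- the history -/
noncomputable def Hs (s : ℕ) : List (ℕ × ℕ) :=
  Nat.rec [] (fun t H => step F β μ t H) s

/-- the monotone family of subspaces -/
def Ls (s e a : ℕ) : Submodule F V :=
  sp F β μ s fun z => z < e ∨ (¬ dumped (Hs F β μ s) z ∧ a ≤ st e z s)

/-- the dumped set -/
def DD (y : ℕ) : Prop := ∃ s, dumped (Hs F β μ s) y

end defs

section comp

variable {F V : Type} [Field F] [AddCommGroup V] [Module F V] [Primcodable V]
variable {β : ℕ → V} {μ : ℕ → List V}
variable {α : Type} [Primcodable α]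

theorem c_st {n y s : α → ℕ} (hn : Computable n) (hy : Computable y) (hs : Computable s) :
    Computable fun a => st (n a) (y a) (s a) := by
  have h := Computable.nat_rec (g := fun _ => (0 : ℕ))
    (h := fun a (p : ℕ × ℕ) => 2 * p.2 + if Wst p.1 (s a) (y a) then 1 else 0) hn
    (Computable.const 0)
    (Primrec.nat_add.to_comp.comp
      (Primrec.nat_double.to_comp.comp (Computable.snd.comp Computable.snd))
      (c_ite (p := fun x : α × ℕ × ℕ => Wst x.2.1 (s x.1) (y x.1))
        (cp_Wst (Computable.fst.comp Computable.snd) (hs.comp Computable.fst)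
          (hy.comp Computable.fst))
        (Computable.const 1) (Computable.const 0))).to₂
  exact h.of_eq fun a => rfl

theorem cp_dumped {H : α → List (ℕ × ℕ)} {y : α → ℕ} (hH : Computable H) (hy : Computable y) :
    ComputablePred fun a => dumped (H a) (y a) :=
  cp_exists_mem (p := fun a (p : ℕ × ℕ) => p.1 = y a) hH
    (cp_eq (Computable.fst.comp Computable.snd) (hy.comp Computable.fst))

theorem prim_gfun : Primrec₂ gfun := by
  have h := Primrec.list_foldr (α := List (ℕ × ℕ) × ℕ) (f := fun a => a.1) (g := fun a => a.2)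
    (h := fun a (q : (ℕ × ℕ) × ℕ) => if q.1.1 < a.2 then max (q.1.2 + 1) q.2 else q.2)
    Primrec.fst Primrec.snd
    (Primrec.ite
      (Primrec.nat_lt.comp (Primrec.fst.comp (Primrec.fst.comp Primrec.snd))
        (Primrec.snd.comp Primrec.fst))
      (Primrec.nat_max.comp
        (Primrec.succ.comp (Primrec.snd.comp (Primrec.fst.comp Primrec.snd)))
        (Primrec.snd.comp Primrec.snd))
      (Primrec.snd.comp Primrec.snd)).to₂
  exact h.of_eq fun a => rfl

theorem prim_giter :
    Primrec fun q : List (ℕ × ℕ) × ℕ × ℕ => (gfun q.1)^[2 ^ q.2.1] q.2.2 := by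
  have hpow : Primrec₂ ((· ^ ·) : ℕ → ℕ → ℕ) := Primrec₂.unpaired'.1 Nat.Primrec.pow
  exact Primrec.nat_iterate (h := fun q : List (ℕ × ℕ) × ℕ × ℕ => gfun q.1)
    (hpow.comp (Primrec.const 2) (Primrec.fst.comp Primrec.snd))
    (Primrec.snd.comp Primrec.snd)
    (prim_gfun.comp (Primrec.fst.comp Primrec.fst) Primrec.snd).to₂

variable (hdep : ComputablePred fun l : List V => LinearIndepOn F id {w | w ∈ l})
variable (hβ : Computable β) (hμ : Computable μ)
include hdep hβ hμ

theorem cp_sp {v : α → V} {s : α → ℕ} {P : α → ℕ → Prop} (hv : Computable v) (hs : Computable s)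
    (hP : ComputablePred fun q : α × ℕ => P q.1 q.2) :
    ComputablePred fun a => v a ∈ sp F β μ (s a) (P a) := by
  classical
  have h1 : Computable fun a =>
      ((List.range (s a)).filter fun z => decide (P a z)).map β ++ μ (s a) :=
    Computable.list_append.comp
      (c_map (g := fun _ z => β z) (c_filter (Primrec.list_range.to_comp.comp hs) hP)
        (hβ.comp Computable.snd).to₂)
      (hμ.comp hs)
  have h2 := cp_comp (cp_mem_span hdep) (hv.pair h1)
  refine h2.of_eq fun a => ?_
  have : {w | w ∈ ((List.range (s a)).filter fun z => decide (P a z)).map β ++ μ (s a)} =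
      β '' {z | z < s a ∧ P a z} ∪ {w | w ∈ μ (s a)} := by
    ext w; simp
  simp only [this, Submodule.span_union, sp, Ms]

theorem c_R0 {k s : α → ℕ} (hk : Computable k) (hs : Computable s) :
    Computable fun a => R0 F β μ (k a) (s a) := by
  classical
  have h := Computable.nat_rec (g := fun _ => (0 : ℕ))
    (h := fun a (p : ℕ × ℕ) =>
      if ∀ i < p.2, β i ∈ sp F β μ p.1 (fun z => z < k a) then p.1 + 1 else p.2) hs
    (Computable.const 0)
    (c_ite (p := fun x : α × ℕ × ℕ => ∀ i < x.2.2, β i ∈ sp F β μ x.2.1 (fun z => z < k x.1))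
      (cp_forall_lt (p := fun (x : α × ℕ × ℕ) i => β i ∈ sp F β μ x.2.1 (fun z => z < k x.1))
        (Computable.snd.comp Computable.snd)
        (cp_sp (α := (α × ℕ × ℕ) × ℕ) hdep hβ hμ (v := fun x => β x.2) (s := fun x => x.1.2.1)
          (P := fun x z => z < k x.1.1)
          (hβ.comp Computable.snd)
          (Computable.fst.comp (Computable.snd.comp Computable.fst))
          (cp_lt Computable.snd
            (hk.comp (Computable.fst.comp (Computable.fst.comp Computable.fst))))))
      (Computable.succ.comp (Computable.fst.comp Computable.snd))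
      (Computable.snd.comp Computable.snd)).to₂
  exact h.of_eq fun a => by unfold R0; congr

theorem cp_Elig {H : α → List (ℕ × ℕ)} {s y n : α → ℕ} (hH : Computable H) (hs : Computable s)
    (hy : Computable y) (hn : Computable n) :
    ComputablePred fun a => Elig F β μ (H a) (s a) (y a) (n a) := by
  have hH' : Computable fun q : α × ℕ => H q.1 := hH.comp Computable.fst
  have hs' : Computable fun q : α × ℕ => s q.1 := hs.comp Computable.fst
  have hy' : Computable fun q : α × ℕ => y q.1 := hy.comp Computable.fst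
  have hn' : Computable fun q : α × ℕ => n q.1 := hn.comp Computable.fst
  have h1 : Computable fun q : α × ℕ => st (n q.1) (y q.1) (s q.1) := c_st hn' hy' hs'
  have h2 : Computable fun q : α × ℕ => st (n q.1) q.2 (s q.1) := c_st hn' Computable.snd hs'
  have h3 : ComputablePred fun q : α × ℕ => ¬ dumped (H q.1) q.2 :=
    cp_not (cp_dumped hH' Computable.snd)
  have h4 : Computable fun q : α × ℕ => (gfun (H q.1))^[2 ^ q.2] (R0 F β μ q.2 (s q.1)) :=
    prim_giter.to_comp.comp
      (hH'.pair (Computable.snd.pair (c_R0 hdep hβ hμ Computable.snd hs')))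
  refine cp_and (cp_not (cp_dumped hH hy)) (cp_and ?_ (cp_and ?_ ?_))
  · exact cp_forall_lt (p := fun a k => (gfun (H a))^[2 ^ k] (R0 F β μ k (s a)) ≤ y a) hn
      (cp_le h4 hy')
  · exact cp_sp hdep hβ hμ
      (P := fun a z => z < n a ∨ (¬ dumped (H a) z ∧ st (n a) (y a) (s a) < st (n a) z (s a)))
      (hβ.comp hy) hs (cp_or (cp_lt Computable.snd hn') (cp_and h3 (cp_lt h1 h2)))
  · exact cp_sp hdep hβ hμ
      (P := fun a z => ¬ dumped (H a) z ∧ (st (n a) (y a) (s a) < st (n a) z (s a) ∨
        (st (n a) (y a) (s a) = st (n a) z (s a) ∧ z < y a)))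
      (hβ.comp hy) hs
      (cp_and h3 (cp_or (cp_lt h1 h2) (cp_and (cp_eq h1 h2) (cp_lt Computable.snd hy'))))

theorem cp_El {H : α → List (ℕ × ℕ)} {s y : α → ℕ} (hH : Computable H) (hs : Computable s)
    (hy : Computable y) : ComputablePred fun a => El F β μ (H a) (s a) (y a) :=
  cp_exists_lt (p := fun a n => Elig F β μ (H a) (s a) (y a) n) (Computable.succ.comp hy)
    (cp_Elig hdep hβ hμ (hH.comp Computable.fst) (hs.comp Computable.fst)
      (hy.comp Computable.fst) Computable.snd)

theorem c_step : Computable fun q : ℕ × List (ℕ × ℕ) => step F β μ q.1 q.2 := by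
  classical
  have h1 := c_filter (α := ℕ × List (ℕ × ℕ)) (f := fun q => List.range q.1)
    (p := fun q y => El F β μ q.2 q.1 y) (Primrec.list_range.to_comp.comp Computable.fst)
    (cp_El hdep hβ hμ (Computable.snd.comp Computable.fst) (Computable.fst.comp Computable.fst)
      Computable.snd)
  have h2 := Computable.option_casesOn (f := fun q : ℕ × List (ℕ × ℕ) => q.2)
    (g := fun q y => (y, q.1) :: q.2) (Primrec.list_head?.to_comp.comp h1) Computable.snd
    (Computable.list_cons.comp (Computable.snd.pair (Computable.fst.comp Computable.fst))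
      (Computable.snd.comp Computable.fst)).to₂
  exact h2.of_eq fun q => by unfold step; congr

theorem c_Hs : Computable (Hs F β μ) := by
  have h := Computable.nat_rec (α := ℕ) (f := id) (g := fun _ => ([] : List (ℕ × ℕ)))
    (h := fun _ p => step F β μ p.1 p.2) Computable.id (Computable.const [])
    ((c_step hdep hβ hμ).comp Computable.snd).to₂
  exact h.of_eq fun s => rfl

theorem re_DD : REPred (DD F β μ) :=
  re_exists (p := fun y s => dumped (Hs F β μ s) y)
    (cp_dumped ((c_Hs hdep hβ hμ).comp Computable.snd) Computable.fst)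

theorem re_Ls (e a : ℕ) : REPred fun v : V => ∃ s, v ∈ Ls F β μ s e a := by
  refine re_exists (p := fun v s => v ∈ Ls F β μ s e a) ?_
  have hs : Computable fun q : (V × ℕ) × ℕ => q.1.2 := Computable.snd.comp Computable.fst
  exact cp_sp (α := V × ℕ) hdep hβ hμ (v := fun q => q.1) (s := fun q => q.2)
    (P := fun q z => z < e ∨ (¬ dumped (Hs F β μ q.2) z ∧ a ≤ st e z q.2))
    Computable.fst Computable.snd
    (cp_or (cp_lt Computable.snd (Computable.const e))
      (cp_and (cp_not (cp_dumped ((c_Hs hdep hβ hμ).comp hs) Computable.snd))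
        (cp_le (Computable.const a) (c_st (Computable.const e) Computable.snd hs))))

end comp

end Pool.Agent.Lib.MP_a0087d_lc
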