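import Pool.Agent.Lib.MP_a0087d_lc.Verify

set_option autoImplicit false

namespace Pool.Agent.Lib.MP_a0087d_lc

open Filter Encodable

variable {F : Type} {V : Type} [Field F] [AddCommGroup V] [Module F V]

theorem exists_sup_ker {X Y : Type} [AddCommGroup X] [Module F X] [AddCommGroup Y] [Module F Y]
    [FiniteDimensional F Y] (f : X →ₗ[F] Y) (hf : Function.Surjective f)
    (U : ℕ → Submodule F X) (hU : Monotone U) (h : ∀ x, ∃ N, x ∈ U N) :
    ∃ N, U N ⊔ LinearMap.ker f = ⊤ := by
  let N : ℕ →o Submodule F Y := ⟨fun n => (U n).map f, fun a b hab => Submodule.map_mono (hU hab)⟩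
  have h1 : iSup N = ⊤ := by
    rw [eq_top_iff]
    intro y _
    obtain ⟨x, rfl⟩ := hf y
    obtain ⟨n, hn⟩ := h x
    exact le_iSup N n (Submodule.mem_map_of_mem hn)
  obtain ⟨n, hn⟩ := Submodule.FG.stabilizes_of_iSup_eq (Module.Finite.fg_top) N h1
  refine ⟨n, ?_⟩
  rw [← Submodule.comap_map_eq]
  have : (U n).map f = ⊤ := hn.symm
  rw [this, Submodule.comap_top]

theorem exists_mem_Vlt {β : ℕ → V} (hβ : Submodule.span F (Set.range β) = ⊤) (v : V) :
    ∃ N, v ∈ Vlt F β N := by
  have hmono : Monotone (Vlt F β) := fun a b h => Vlt_mono h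
  rw [← Submodule.mem_iSup_of_directed _ hmono.directed_le]
  have : Submodule.span F (Set.range β) ≤ ⨆ N, Vlt F β N := by
    rw [Submodule.span_le]
    rintro _ ⟨z, rfl⟩
    exact le_iSup (Vlt F β) (z + 1) (mem_Vlt (Nat.lt_succ_self z))
  exact this (hβ ▸ Submodule.mem_top)

theorem large_of_fd {β : ℕ → V} (hβ : Submodule.span F (Set.range β) = ⊤) (W : Submodule F V)
    (h : FiniteDimensional F (V ⧸ W)) : ∃ N, W ⊔ Vlt F β N = ⊤ := by
  obtain ⟨N, hN⟩ := exists_sup_ker W.mkQ W.mkQ_surjective (Vlt F β) (fun a b h => Vlt_mono h)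
    (exists_mem_Vlt hβ)
  exact ⟨N, by rwa [Submodule.ker_mkQ, sup_comm] at hN⟩

theorem small_of_fd {β : ℕ → V} (hβ : Submodule.span F (Set.range β) = ⊤) (M W : Submodule F V)
    (h : FiniteDimensional F (W ⧸ M.comap W.subtype)) : ∃ N, W ≤ M ⊔ Vlt F β N := by
  obtain ⟨N, hN⟩ := exists_sup_ker (M.comap W.subtype).mkQ (M.comap W.subtype).mkQ_surjective
    (fun N => (Vlt F β N).comap W.subtype) (fun a b h => Submodule.comap_mono (Vlt_mono h))
    (fun x => exists_mem_Vlt hβ x.1)
  refine ⟨N, fun v hv => ?_⟩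
  rw [Submodule.ker_mkQ] at hN
  have : (⟨v, hv⟩ : W) ∈ (Vlt F β N).comap W.subtype ⊔ M.comap W.subtype :=
    hN ▸ Submodule.mem_top
  obtain ⟨a, ha, b, hb, hab⟩ := Submodule.mem_sup.1 this
  have h2 : v = b.1 + a.1 := by
    have := congrArg Subtype.val hab
    simpa [add_comm] using this.symm
  rw [h2]
  exact Submodule.add_mem_sup hb ha

theorem hex_of_not_fd {β : ℕ → V} (hβ : Submodule.span F (Set.range β) = ⊤) (M : Submodule F V)
    (h : ¬ FiniteDimensional F (V ⧸ M)) (N : ℕ) : ∃ v, β v ∉ M ⊔ Vlt F β N := by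
  by_contra hc
  push Not at hc
  apply h
  have h1 : M ⊔ Vlt F β N = ⊤ := by
    rw [eq_top_iff, ← hβ, Submodule.span_le]
    rintro _ ⟨z, rfl⟩
    exact hc z
  have h2 : (Vlt F β N).map M.mkQ = ⊤ := by
    rw [Submodule.map_mkQ_eq_top]; exact h1
  have h3 : (Vlt F β N).FG := Submodule.fg_span ((Set.finite_Iio N).image β)
  exact ⟨h2 ▸ h3.map M.mkQ⟩

theorem not_fd_span {B A : Set V} (hB : LinearIndepOn F id B) (hAB : A ⊆ B)
    (hinf : (B \ A).Infinite) : ¬ FiniteDimensional F (V ⧸ Submodule.span F A) := by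
  intro h
  have h1 : LinearIndepOn F id (B \ A) := hB.mono Set.sdiff_subset
  have h0 : LinearIndepOn F id ((B \ A) ∪ A) := by rwa [Set.sdiff_union_of_subset hAB]
  have h2 : Disjoint (Submodule.span F (B \ A)) (Submodule.span F A) := by
    have := ((linearIndepOn_union_iff Set.disjoint_sdiff_left).1 h0).2.2
    simpa using this
  have h3 : LinearIndependent F ((Submodule.span F A).mkQ ∘ fun x : ↥(B \ A) => (x : V)) := by
    refine LinearIndependent.map h1 ?_
    rw [Submodule.ker_mkQ]
    have : (Set.range fun x : ↥(B \ A) => id (x : V)) = B \ A := by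
      ext x
      simp
    rw [this]
    exact h2
  have : Infinite ↥(B \ A) := hinf.to_subtype
  exact Module.Finite.not_linearIndependent_of_infinite _ h3

variable [Primcodable V]

theorem exists_approx {X : Set V} (hX : REPred fun v => v ∈ X) :
    ∃ μ : ℕ → List V, Computable μ ∧ Monotone (Ms F μ) ∧
      ∀ v, v ∈ Submodule.span F X ↔ ∃ s, v ∈ Ms F μ s := by
  obtain ⟨e, he⟩ := re_index hX
  let γ : ℕ → V := fun i => (decode₂ V i).getD 0
  have hγ : Computable γ :=
    Computable.option_getD Primrec.decode₂.to_comp (Computable.const 0)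
  let μ : ℕ → List V := fun s => ((List.range s).filter fun i => decide (Wst e s i)).map γ
  have hmem : ∀ s w, w ∈ μ s ↔ ∃ i < s, Wst e s i ∧ γ i = w := by
    intro s w
    simp [μ, and_assoc]
  have hmono : Monotone (Ms F μ) := by
    intro s t hst
    refine Submodule.span_mono fun w hw => ?_
    obtain ⟨i, hi, h1, h2⟩ := (hmem s w).1 hw
    exact (hmem t w).2 ⟨i, hi.trans_le hst, Wst_mono hst h1, h2⟩
  refine ⟨μ, ?_, hmono, fun v => ?_⟩
  · exact c_map (g := fun _ i => γ i)
      (c_filter (p := fun s i => Wst e s i) Primrec.list_range.to_comp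
        (cp_Wst (Computable.const e) Computable.fst Computable.snd))
      (hγ.comp Computable.snd).to₂
  · rw [← Submodule.mem_iSup_of_directed _ hmono.directed_le]
    have : Submodule.span F X = ⨆ s, Ms F μ s := by
      apply le_antisymm
      · rw [Submodule.span_le]
        intro x hx
        obtain ⟨s, hs⟩ := (he x).1 hx
        refine le_iSup (Ms F μ) (max s (encode x + 1)) (Submodule.subset_span ?_)
        refine (hmem _ _).2 ⟨encode x, ?_, Wst_mono (le_max_left _ _) hs, by simp [γ]⟩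
        exact (Nat.lt_succ_self _).trans_le (le_max_right _ _)
      · refine iSup_le fun s => Submodule.span_le.2 fun w hw => ?_
        obtain ⟨i, _, h1, rfl⟩ := (hmem s w).1 hw
        cases h : decode₂ V i with
        | none => simp [γ, h]
        | some x =>
          have hx : encode x = i := mem_decode₂.1 h
          have : γ i = x := by simp [γ, h]
          rw [this]
          exact Submodule.subset_span ((he x).2 ⟨s, hx ▸ h1⟩)
    rw [this]

theorem re_span (hdep : ComputablePred fun l : List V => LinearIndepOn F id {w | w ∈ l})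
    {X : Set V} (hX : REPred fun v => v ∈ X) : REPred fun v => v ∈ Submodule.span F X := by
  obtain ⟨μ, h1, _, h3⟩ := exists_approx (F := F) hX
  have h4 : ComputablePred fun q : V × ℕ => q.1 ∈ Ms F μ q.2 :=
    (cp_comp (f := fun q : V × ℕ => (q.1, μ q.2)) (cp_mem_span hdep)
      (Computable.fst.pair (h1.comp Computable.snd))).of_eq fun q => Iff.rfl
  have := re_exists (p := fun (v : V) s => v ∈ Ms F μ s) h4
  exact this.of_eq fun v => (h3 v).symm

theorem exists_maximal (hdep : ComputablePred fun l : List V => LinearIndepOn F id {w | w ∈ l})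
    {B : Set V} (hBc : ComputablePred fun v => v ∈ B) (hBs : Submodule.span F B = ⊤)
    {M : Submodule F V} (hM : REPred fun v => v ∈ M) (hMi : ¬ FiniteDimensional F (V ⧸ M))
    (hmax : ∀ W : Submodule F V, (REPred fun v => v ∈ W) → M ≤ W →
      FiniteDimensional F (W ⧸ M.comap W.subtype) ∨ FiniteDimensional F (V ⧸ W)) :
    ∃ D : Set V, (∀ v ∈ B, v ∈ M → v ∈ D) ∧ (REPred fun v => v ∈ D) ∧ D ⊆ B ∧ (B \ D).Infinite ∧
      ∀ W : Set V, (REPred fun v => v ∈ W) → D ⊆ W → W ⊆ B →
        (W \ D).Finite ∨ (B \ W).Finite := by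
  classical
  obtain ⟨μ, hμ, hmono, hMs⟩ := exists_approx (F := F) (X := (M : Set V)) hM
  rw [Submodule.span_eq] at hMs
  let γ : ℕ → V := fun i => (decode₂ V i).getD 0
  have hγ : Computable γ :=
    Computable.option_getD Primrec.decode₂.to_comp (Computable.const 0)
  let β : ℕ → V := fun i => if γ i ∈ B then γ i else 0
  have hβ : Computable β := c_ite (cp_comp hBc hγ) hγ (Computable.const 0)
  have hβ1 : ∀ v ∈ B, β (encode v) = v := by
    intro v hv
    simp [β, γ, hv]
  have hβ2 : ∀ i, β i ≠ 0 → ∃ v ∈ B, encode v = i := by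
    intro i hi
    cases h : decode₂ V i with
    | none => simp [β, γ, h] at hi
    | some x =>
      refine ⟨x, ?_, mem_decode₂.1 h⟩
      by_contra hx
      simp [β, γ, h, hx] at hi
  have hβs : Submodule.span F (Set.range β) = ⊤ := by
    rw [eq_top_iff, ← hBs]
    exact Submodule.span_mono fun v hv => ⟨encode v, hβ1 v hv⟩
  have hex := hex_of_not_fd hβs M hMi
  have hdich : ∀ e a, (∃ N, (⨆ s, Ls F β μ s e a) ≤ M ⊔ Vlt F β N) ∨
      (∃ N, (⨆ s, Ls F β μ s e a) ⊔ Vlt F β N = ⊤) := by
    intro e a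
    have h1 : REPred fun v => v ∈ ⨆ s, Ls F β μ s e a :=
      (re_Ls hdep hβ hμ e a).of_eq fun v => (mem_Linf hmono).symm
    exact (hmax _ h1 (M_le_Linf hMs e a)).imp (small_of_fd hβs _ _) (large_of_fd hβs _)
  have hre : REPred fun v => v ∈ B ∧ DD F β μ (encode v) := by
    have := re_exists (p := fun (v : V) s => v ∈ B ∧ dumped (Hs F β μ s) (encode v))
      (cp_and (cp_comp hBc Computable.fst)
        (cp_dumped (H := fun q : V × ℕ => Hs F β μ q.2) (y := fun q : V × ℕ => encode q.1)
          ((c_Hs hdep hβ hμ).comp Computable.snd)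
          (Computable.encode.comp Computable.fst)))
    exact this.of_eq fun v => by simp [DD]
  have hDD : ∀ y, β y ∈ M → DD F β μ y := fun y hy => DD_of_mem hmono hMs hy
  have hsurv := survive hmono hMs hex
  have hcoh := cohesive hmono hMs hex hβs hdich
  generalize DD F β μ = D at hre hDD hsurv hcoh
  refine ⟨{v | v ∈ B ∧ D (encode v)}, And.intro ?_ (And.intro ?_ (And.intro ?_ (And.intro ?_ ?_)))⟩
  · intro v hv hvM
    exact ⟨hv, hDD _ (by rw [hβ1 v hv]; exact hvM)⟩
  · exact REPred.of_eq hre fun v => Iff.rfl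
  · intro v hv
    exact hv.1
  · intro hfin
    obtain ⟨k, hk⟩ := (hfin.image encode).bddAbove
    obtain ⟨y, hy, hky⟩ := hsurv (k + 1)
    have h0 : β y ≠ 0 := fun h => hy (hDD _ (by rw [h]; exact M.zero_mem))
    obtain ⟨v, hv, rfl⟩ := hβ2 y h0
    have : encode v ≤ k := hk ⟨v, ⟨hv, fun h => hy h.2⟩, rfl⟩
    omega
  · intro W hW hDW hWB
    obtain ⟨e, he⟩ := re_index hW
    generalize hX : (fun y => ∃ s, Wst e s y) = X
    have he' : ∀ v, v ∈ W ↔ X (encode v) := fun v => by rw [← hX]; exact he v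
    have hc : {y | ¬ D y ∧ X y}.Finite ∨ {y | ¬ D y ∧ ¬ X y}.Finite := by
      rw [← hX]; exact hcoh e
    rcases hc with h | h
    · left
      refine Set.Finite.subset (h.preimage (encode_injective (α := V)).injOn) ?_
      rintro v ⟨h1, h2⟩
      exact ⟨fun h3 => h2 ⟨hWB h1, h3⟩, (he' v).1 h1⟩
    · right
      refine Set.Finite.subset (h.preimage (encode_injective (α := V)).injOn) ?_
      rintro v ⟨h1, h2⟩
      exact ⟨fun h3 => h2 (hDW ⟨h1, h3⟩), fun h3 => h2 ((he' v).2 h3)⟩

end Pool.Agent.Lib.MP_a0087d_lc
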