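import Pool.Agent.Lib.MP_a0087d_lc.Constr

set_option autoImplicit false

namespace Pool.Agent.Lib.MP_a0087d_lc

open Filter

variable {F : Type} {V : Type} [Field F] [AddCommGroup V] [Module F V]
variable {β : ℕ → V} {μ : ℕ → List V}

theorem Hs_succ (s : ℕ) : Hs F β μ (s + 1) = step F β μ s (Hs F β μ s) := rfl

theorem step_spec (s : ℕ) (H : List (ℕ × ℕ)) :
    ((∀ y < s, ¬ El F β μ H s y) ∧ step F β μ s H = H) ∨
      ∃ y < s, El F β μ H s y ∧ (∀ z < y, ¬ El F β μ H s z) ∧ step F β μ s H = (y, s) :: H := by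
  classical
  unfold step
  rw [List.head?_filter]
  cases h : List.find? (fun y => decide (El F β μ H s y)) (List.range s) with
  | none =>
    left
    refine ⟨fun y hy => ?_, rfl⟩
    simpa using List.find?_range_eq_none.1 h y hy
  | some y =>
    right
    obtain ⟨h1, h2, h3⟩ := List.find?_range_eq_some.1 h
    refine ⟨y, by simpa using h2, by simpa using h1, fun z hz => ?_, rfl⟩
    simpa using h3 z hz

theorem Hs_subset_succ (s : ℕ) : ∀ p ∈ Hs F β μ s, p ∈ Hs F β μ (s + 1) := by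
  intro p hp
  rw [Hs_succ]
  rcases step_spec (F := F) (β := β) (μ := μ) s (Hs F β μ s) with ⟨_, h⟩ | ⟨y, _, _, _, h⟩
  · rw [h]; exact hp
  · rw [h]; exact List.mem_cons_of_mem _ hp

theorem Hs_subset {s t : ℕ} (h : s ≤ t) : ∀ p ∈ Hs F β μ s, p ∈ Hs F β μ t := by
  induction t, h using Nat.le_induction with
  | base => exact fun p hp => hp
  | succ t _ ih => exact fun p hp => Hs_subset_succ t p (ih p hp)

theorem dumped_mono {s t y : ℕ} (h : s ≤ t) (hy : dumped (Hs F β μ s) y) :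
    dumped (Hs F β μ t) y := by
  obtain ⟨p, hp, rfl⟩ := hy
  exact ⟨p, Hs_subset h p hp, rfl⟩

theorem mem_Hs {s : ℕ} {p : ℕ × ℕ} (hp : p ∈ Hs F β μ s) :
    p.2 < s ∧ p.1 < p.2 ∧ El F β μ (Hs F β μ p.2) p.2 p.1 ∧
      Hs F β μ (p.2 + 1) = p :: Hs F β μ p.2 := by
  induction s with
  | zero => simp [Hs] at hp
  | succ s ih =>
    rw [Hs_succ] at hp
    rcases step_spec (F := F) (β := β) (μ := μ) s (Hs F β μ s) with ⟨_, h⟩ | ⟨y, hy, h1, _, h⟩
    · rw [h] at hp
      obtain ⟨a, b⟩ := ih hp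
      exact ⟨a.trans (Nat.lt_succ_self s), b⟩
    · rw [h] at hp
      rcases List.mem_cons.1 hp with rfl | hp
      · exact ⟨Nat.lt_succ_self s, hy, h1, by rw [Hs_succ, h]⟩
      · obtain ⟨a, b⟩ := ih hp
        exact ⟨a.trans (Nat.lt_succ_self s), b⟩

theorem El.not_dumped {H : List (ℕ × ℕ)} {s y : ℕ} (h : El F β μ H s y) : ¬ dumped H y := by
  obtain ⟨n, _, h, _⟩ := h
  exact h

theorem dumped_cons {p : ℕ × ℕ} {H : List (ℕ × ℕ)} {y : ℕ} :
    dumped (p :: H) y ↔ p.1 = y ∨ dumped H y := by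
  simp [dumped]

theorem not_dumped_self (s : ℕ) : ¬ dumped (Hs F β μ (s + 1)) s := by
  rintro ⟨p, hp, h⟩
  obtain ⟨h1, h2, _⟩ := mem_Hs hp
  omega

theorem no_inf {x s0 : ℕ} (h : ∀ s ≥ s0, ∃ y ≤ x, y < s ∧ El F β μ (Hs F β μ s) s y) : False := by
  classical
  let c : ℕ → ℕ := fun s => ((Finset.range (x + 1)).filter fun y => dumped (Hs F β μ s) y).card
  have hc : ∀ s ≥ s0, c s < c (s + 1) := by
    intro s hs
    obtain ⟨y, hyx, hys, hy⟩ := h s hs
    rcases step_spec (F := F) (β := β) (μ := μ) s (Hs F β μ s) with ⟨h1, _⟩ | ⟨z, _, h1, h2, h3⟩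
    · exact absurd hy (h1 y hys)
    · have hzy : z ≤ y := by
        by_contra hc
        exact h2 y (not_le.1 hc) hy
      apply Finset.card_lt_card
      rw [Finset.ssubset_iff_of_subset]
      · refine ⟨z, ?_, ?_⟩
        · simp only [Finset.mem_filter, Finset.mem_range]
          refine ⟨by omega, ?_⟩
          rw [Hs_succ, h3]
          exact dumped_cons.2 (Or.inl rfl)
        · simp only [Finset.mem_filter, not_and]
          exact fun _ => h1.not_dumped
      · intro w hw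
        simp only [Finset.mem_filter] at hw ⊢
        exact ⟨hw.1, dumped_mono (Nat.le_succ s) hw.2⟩
  have hc2 : ∀ k, k ≤ c (s0 + k) := by
    intro k
    induction k with
    | zero => exact Nat.zero_le _
    | succ k ih =>
      have := hc (s0 + k) (Nat.le_add_right _ _)
      rw [← add_assoc]
      omega
  have hc3 : c (s0 + (x + 2)) ≤ x + 1 := by
    simpa using (Finset.card_filter_le (Finset.range (x + 1)) fun y =>
      dumped (Hs F β μ (s0 + (x + 2))) y)
  have := hc2 (x + 2)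
  omega

theorem stage_bound (y : ℕ) : ∃ T, ∀ s, ∀ p ∈ Hs F β μ s, p.1 = y → p.2 + 1 ≤ T := by
  by_cases h : DD F β μ y
  · obtain ⟨s0, hs0⟩ := h
    refine ⟨s0, fun s p hp hpy => ?_⟩
    obtain ⟨_, _, h3, _⟩ := mem_Hs hp
    by_contra hc
    exact h3.not_dumped (hpy ▸ dumped_mono (by omega) hs0)
  · exact ⟨0, fun s p hp hpy => absurd ⟨s, p, hp, hpy⟩ h⟩

theorem gfun_bound (x : ℕ) : ∃ B, ∀ s, gfun (Hs F β μ s) x ≤ B := by
  choose T hT using stage_bound (F := F) (β := β) (μ := μ)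
  refine ⟨max x ((Finset.range x).sup T), fun s => gfun_le (le_max_left _ _) fun p hp h => ?_⟩
  exact (hT p.1 s p hp rfl).trans
    ((Finset.le_sup (f := T) (Finset.mem_range.2 h)).trans (le_max_right _ _))

theorem giter_bound (j x : ℕ) : ∃ B, ∀ s, (gfun (Hs F β μ s))^[j] x ≤ B := by
  induction j with
  | zero => exact ⟨x, fun _ => le_rfl⟩
  | succ j ih =>
    obtain ⟨B, hB⟩ := ih
    obtain ⟨B', hB'⟩ := gfun_bound (F := F) (β := β) (μ := μ) B
    refine ⟨B', fun s => ?_⟩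
    rw [Function.iterate_succ_apply']
    exact (gfun_mono (fun p hp => hp) (hB s)).trans (hB' s)

theorem sp_le {s : ℕ} {P : ℕ → Prop} {S : Submodule F V} (h1 : Ms F μ s ≤ S)
    (h2 : ∀ z < s, P z → β z ∈ S) : sp F β μ s P ≤ S := by
  refine sup_le (Submodule.span_le.2 ?_) h1
  rintro _ ⟨z, ⟨hz, hP⟩, rfl⟩
  exact h2 z hz hP

theorem mem_sp {s z : ℕ} {P : ℕ → Prop} (hz : z < s) (hP : P z) : β z ∈ sp F β μ s P :=
  Submodule.mem_sup_left (Submodule.subset_span ⟨z, ⟨hz, hP⟩, rfl⟩)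

theorem Ms_le_sp (s : ℕ) (P : ℕ → Prop) : Ms F μ s ≤ sp F β μ s P := le_sup_right

theorem mem_Vlt {z N : ℕ} (h : z < N) : β z ∈ Vlt F β N :=
  Submodule.subset_span ⟨z, h, rfl⟩

theorem Vlt_le {N : ℕ} {S : Submodule F V} (h : ∀ z < N, β z ∈ S) : Vlt F β N ≤ S := by
  refine Submodule.span_le.2 ?_
  rintro _ ⟨z, hz, rfl⟩
  exact h z hz

theorem Vlt_mono {N N' : ℕ} (h : N ≤ N') : Vlt F β N ≤ Vlt F β N' :=
  Vlt_le fun _ hz => mem_Vlt (hz.trans_le h)

open Classical in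
theorem R0_succ (k s : ℕ) : R0 F β μ k (s + 1) =
    if ∀ i < R0 F β μ k s, β i ∈ sp F β μ s (fun z => z < k) then s + 1 else R0 F β μ k s := rfl

theorem R0_le (k s : ℕ) : R0 F β μ k s ≤ s := by
  induction s with
  | zero => exact le_rfl
  | succ s ih => rw [R0_succ]; split_ifs <;> omega

theorem R0_mono (k : ℕ) : Monotone (R0 F β μ k) := by
  refine monotone_nat_of_le_succ fun s => ?_
  have := R0_le (F := F) (β := β) (μ := μ) k s
  rw [R0_succ]; split_ifs <;> omega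

theorem R0_fix (k s : ℕ) : R0 F β μ k (R0 F β μ k s) = R0 F β μ k s := by
  induction s with
  | zero => rfl
  | succ s ih =>
    by_cases h : ∀ i < R0 F β μ k s, β i ∈ sp F β μ s (fun z => z < k)
    · have : R0 F β μ k (s + 1) = s + 1 := by rw [R0_succ, if_pos h]
      rw [this, this]
    · have : R0 F β μ k (s + 1) = R0 F β μ k s := by rw [R0_succ, if_neg h]
      rw [this, ih]

theorem exists_dep_aux (P : Submodule F V) (T : Finset V) {n : ℕ} (hT : T.card ≤ n) (v : ℕ → V)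
    (hv : ∀ i ≤ n, v i ∈ P ⊔ Submodule.span F (T : Set V)) :
    ∃ i ≤ n, v i ∈ P ⊔ Submodule.span F (v '' {j | j < i}) := by
  classical
  by_contra hc
  push Not at hc
  let q := P.mkQ
  let S : ℕ → Submodule F (V ⧸ P) := fun i => Submodule.span F (q '' (v '' {j | j < i}))
  let U : Submodule F (V ⧸ P) := Submodule.span F (T.image q : Set (V ⧸ P))
  have hU : Module.finrank F U ≤ n :=
    (finrank_span_finset_le_card (T.image q)).trans (Finset.card_image_le.trans hT)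
  have hSU : ∀ i ≤ n + 1, S i ≤ U := by
    intro i hi
    refine Submodule.span_le.2 ?_
    rintro _ ⟨_, ⟨j, hj, rfl⟩, rfl⟩
    have hj' : j < i := hj
    obtain ⟨a, ha, b, hb, hab⟩ := Submodule.mem_sup.1 (hv j (by omega))
    have : q (v j) = q b := by
      rw [← hab, map_add]
      have : q a = 0 := (Submodule.Quotient.mk_eq_zero P).2 ha
      rw [this, zero_add]
    rw [this]
    have hb' := Submodule.mem_map_of_mem (f := q) hb
    rw [Submodule.map_span] at hb'
    simpa [U] using hb'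
  have hfin : ∀ i ≤ n + 1, i ≤ Module.finrank F (S i) := by
    intro i
    induction i with
    | zero => intro _; exact Nat.zero_le _
    | succ i ih =>
      intro hi
      have hfd : FiniteDimensional F (S (i + 1)) := Submodule.finiteDimensional_of_le (hSU _ hi)
      have hlt : S i < S (i + 1) := by
        refine lt_of_le_of_ne (Submodule.span_mono (Set.image_mono (Set.image_mono ?_))) ?_
        · intro j hj
          have hj' : j < i := hj
          exact hj'.trans (Nat.lt_succ_self i)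
        · intro heq
          have h1 : q (v i) ∈ S i := by
            rw [heq]
            exact Submodule.subset_span ⟨v i, ⟨i, Nat.lt_succ_self i, rfl⟩, rfl⟩
          apply hc i (by omega)
          have h2 : v i ∈ (Submodule.map q (Submodule.span F (v '' {j | j < i}))).comap q := by
            rw [Submodule.map_span]; exact h1
          rwa [Submodule.comap_map_mkQ] at h2
      have := Submodule.finrank_lt_finrank_of_lt hlt
      have := ih (by omega)
      omega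
  have h1 := hfin (n + 1) le_rfl
  have h2 := Submodule.finrank_mono (hSU (n + 1) le_rfl)
  omega

section main

variable {M : Submodule F V}
variable (hmono : Monotone (Ms F μ)) (hM : ∀ v, v ∈ M ↔ ∃ s, v ∈ Ms F μ s)
include hmono

theorem Ls_le_succ (s e a : ℕ) : Ls F β μ s e a ≤ Ls F β μ (s + 1) e a := by
  have hMs : Ms F μ s ≤ Ls F β μ (s + 1) e a :=
    (hmono (Nat.le_succ s)).trans (Ms_le_sp _ _)
  have hkeep : ∀ z < s, ¬ dumped (Hs F β μ (s + 1)) z → a ≤ st e z s →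
      β z ∈ Ls F β μ (s + 1) e a := fun z hz h1 h2 =>
    mem_sp (hz.trans (Nat.lt_succ_self s))
      (Or.inr ⟨h1, h2.trans (st_mono e z (Nat.le_succ s))⟩)
  refine sp_le hMs fun z hz hP => ?_
  rcases hP with hP | ⟨hP, ha⟩
  · exact mem_sp (hz.trans (Nat.lt_succ_self s)) (Or.inl hP)
  rcases step_spec (F := F) (β := β) (μ := μ) s (Hs F β μ s) with ⟨_, h⟩ | ⟨y, _, h1, _, h⟩
  · exact hkeep z hz (by rw [Hs_succ, h]; exact hP) ha
  have hnd : ∀ w, w ≠ y → ¬ dumped (Hs F β μ s) w → ¬ dumped (Hs F β μ (s + 1)) w := by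
    intro w hw hd
    rw [Hs_succ, h, dumped_cons]
    rintro (h' | h')
    · exact hw h'.symm
    · exact hd h'
  by_cases hzy : z = y
  swap
  · exact hkeep z hz (hnd z hzy hP) ha
  subst hzy
  obtain ⟨n, _, _, _, hE1, hE2⟩ := h1
  rcases le_total e n with hen | hen
  · refine sp_le hMs (fun w hw hPw => ?_) hE2
    obtain ⟨hd, hst⟩ := hPw
    have hwz : w ≠ z := by
      rintro rfl
      omega
    refine hkeep w hw (hnd w hwz hd) (ha.trans (st_le_of_le hen ?_))
    omega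
  · refine sp_le hMs (fun w hw hPw => ?_) hE1
    rcases hPw with hPw | ⟨hd, hst⟩
    · exact mem_sp (hw.trans (Nat.lt_succ_self s)) (Or.inl (hPw.trans_le hen))
    · have hwz : w ≠ z := by
        rintro rfl
        omega
      exact hkeep w hw (hnd w hwz hd) (ha.trans (st_lt_of_lt hen hst).le)

theorem Ls_mono (e a : ℕ) : Monotone fun s => Ls F β μ s e a :=
  monotone_nat_of_le_succ fun s => Ls_le_succ hmono s e a

theorem mem_Linf {e a : ℕ} {v : V} :
    v ∈ (⨆ s, Ls F β μ s e a) ↔ ∃ s, v ∈ Ls F β μ s e a :=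
  Submodule.mem_iSup_of_directed _ (Ls_mono hmono e a).directed_le

theorem ev_mem_Ls {e a : ℕ} {v : V} (h : v ∈ (⨆ s, Ls F β μ s e a)) :
    ∀ᶠ s in atTop, v ∈ Ls F β μ s e a := by
  obtain ⟨s0, hs0⟩ := (mem_Linf hmono).1 h
  filter_upwards [eventually_ge_atTop s0] with s hs
  exact Ls_mono hmono e a hs hs0

omit hmono in
theorem Vlt_le_Linf (e a : ℕ) : Vlt F β e ≤ ⨆ s, Ls F β μ s e a :=
  Vlt_le fun z hz => le_iSup (fun s => Ls F β μ s e a) (z + 1)
    (mem_sp (Nat.lt_succ_self z) (Or.inl hz))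

omit hmono in
theorem mem_Ls_zero (e z : ℕ) : β z ∈ Ls F β μ (z + 1) e 0 :=
  mem_sp (Nat.lt_succ_self z) (Or.inr ⟨not_dumped_self z, Nat.zero_le _⟩)

include hM

omit hmono in
theorem Ms_le (s : ℕ) : Ms F μ s ≤ M := fun v hv => (hM v).2 ⟨s, hv⟩

omit hmono in
theorem M_le_Linf (e a : ℕ) : M ≤ ⨆ s, Ls F β μ s e a := by
  intro v hv
  obtain ⟨s, hs⟩ := (hM v).1 hv
  exact le_iSup (fun s => Ls F β μ s e a) s (Ms_le_sp _ _ hs)

theorem ev_mem_sp {k : ℕ} {v : V} (hv : v ∈ M ⊔ Vlt F β k) :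
    ∀ᶠ s in atTop, v ∈ sp F β μ s fun z => z < k := by
  obtain ⟨a, ha, b, hb, rfl⟩ := Submodule.mem_sup.1 hv
  obtain ⟨s0, hs0⟩ := (hM a).1 ha
  filter_upwards [eventually_ge_atTop s0, eventually_ge_atTop k] with s h1 h2
  refine Submodule.add_mem _ (Ms_le_sp _ _ (hmono h1 hs0)) ?_
  exact Vlt_le (fun z hz => mem_sp (hz.trans_le h2) hz) hb

theorem R0_spec (hex : ∀ N, ∃ v, β v ∉ M ⊔ Vlt F β N) (k : ℕ) :
    ∃ t, (∀ s ≥ t, R0 F β μ k s = t) ∧ ∃ v < t, β v ∉ M ⊔ Vlt F β k := by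
  have hA : ∀ s, (∃ v < R0 F β μ k s, β v ∉ M ⊔ Vlt F β k) →
      R0 F β μ k (s + 1) = R0 F β μ k s := by
    rintro s ⟨v, hv, hv'⟩
    rw [R0_succ, if_neg]
    intro h
    refine hv' (sp_le ((Ms_le hM s).trans le_sup_left) (fun z _ hz => ?_) (h v hv))
    exact Submodule.mem_sup_right (mem_Vlt hz)
  have hC : ∃ s, ∃ v < R0 F β μ k s, β v ∉ M ⊔ Vlt F β k := by
    by_contra hc
    push Not at hc
    obtain ⟨v0, hv0⟩ := hex k
    have hb : ∀ s, R0 F β μ k s ≤ v0 := by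
      intro s
      by_contra h
      exact hv0 (hc s v0 (not_le.1 h))
    have hev : ∀ᶠ s in atTop, ∀ i ∈ Finset.range (v0 + 1),
        β i ∈ M ⊔ Vlt F β k → β i ∈ sp F β μ s fun z => z < k := by
      rw [Finset.eventually_all]
      intro i _
      by_cases hi : β i ∈ M ⊔ Vlt F β k
      · filter_upwards [ev_mem_sp hmono hM hi] with s hs _ using hs
      · exact Eventually.of_forall fun s h => absurd h hi
    obtain ⟨s, hs, hs'⟩ := (hev.and (eventually_ge_atTop v0)).exists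
    have h1 : R0 F β μ k (s + 1) = s + 1 := by
      rw [R0_succ, if_pos]
      intro i hi
      exact hs i (Finset.mem_range.2 (by have := hb s; omega)) (hc s i hi)
    have := hb (s + 1)
    omega
  obtain ⟨s0, hs0⟩ := hC
  have h1 : ∀ s ≥ s0, R0 F β μ k s = R0 F β μ k s0 := by
    intro s hs
    induction s, hs using Nat.le_induction with
    | base => rfl
    | succ s _ ih => rw [hA s (ih ▸ hs0), ih]
  refine ⟨R0 F β μ k s0, fun s hs => ?_, hs0⟩
  rcases le_total s s0 with h | h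
  · refine le_antisymm (R0_mono k h) ?_
    have := R0_mono (F := F) (β := β) (μ := μ) k hs
    rwa [R0_fix] at this
  · exact h1 s h

theorem restraint_bound (hex : ∀ N, ∃ v, β v ∉ M ⊔ Vlt F β N) (n : ℕ) :
    ∃ B, ∀ s, ∀ k < n, (gfun (Hs F β μ s))^[2 ^ k] (R0 F β μ k s) ≤ B := by
  have h : ∀ k, ∃ B, ∀ s, (gfun (Hs F β μ s))^[2 ^ k] (R0 F β μ k s) ≤ B := by
    intro k
    obtain ⟨t, ht, _⟩ := R0_spec hmono hM hex k
    obtain ⟨B, hB⟩ := giter_bound (F := F) (β := β) (μ := μ) (2 ^ k) t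
    refine ⟨B, fun s => le_trans (gfun_iter_mono (fun p hp => hp) _ ?_) (hB s)⟩
    rw [← ht (max s t) (le_max_right _ _)]
    exact R0_mono k (le_max_left _ _)
  choose B hB using h
  exact ⟨(Finset.range n).sup B, fun s k hk =>
    (hB k s).trans (Finset.le_sup (f := B) (Finset.mem_range.2 hk))⟩

theorem key_finite (hex : ∀ N, ∃ v, β v ∉ M ⊔ Vlt F β N) (n τ : ℕ) :
    {y | ¬ DD F β μ y ∧ stInf n y = τ ∧ β y ∈ ⨆ s, Ls F β μ s n (τ + 1)}.Finite := by
  classical
  by_contra hinf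
  obtain ⟨B, hB⟩ := restraint_bound hmono hM hex n
  set Y := {y | ¬ DD F β μ y ∧ stInf n y = τ ∧ β y ∈ ⨆ s, Ls F β μ s n (τ + 1)} with hY
  have hY2 : (Y \ Set.Iio (max B n)).Infinite := Set.Infinite.sdiff hinf (Set.finite_Iio _)
  let u : ℕ → ℕ := Nat.nth fun y => y ∈ Y \ Set.Iio (max B n)
  have hu : ∀ i, u i ∈ Y \ Set.Iio (max B n) := fun i => Nat.nth_mem_of_infinite hY2 i
  have hum : StrictMono u := Nat.nth_strictMono hY2
  have hev : ∀ᶠ s in atTop, ∀ i ∈ Finset.range (n + 1),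
      u i < s ∧ st n (u i) s = τ ∧ β (u i) ∈ Ls F β μ s n (τ + 1) := by
    rw [Finset.eventually_all]
    intro i _
    obtain ⟨⟨_, h2, h3⟩, _⟩ := hu i
    filter_upwards [eventually_gt_atTop (u i), st_ev n (u i), ev_mem_Ls hmono h3] with s a b c
    exact ⟨a, b.trans h2, c⟩
  obtain ⟨s0, hs0⟩ := eventually_atTop.1 hev
  refine no_inf (F := F) (β := β) (μ := μ) (x := u n) (s0 := s0) fun s hs => ?_
  have hs1 : ∀ i ≤ n, u i < s ∧ st n (u i) s = τ ∧ β (u i) ∈ Ls F β μ s n (τ + 1) :=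
    fun i hi => hs0 s hs i (Finset.mem_range.2 (by omega))
  have hnd : ∀ i, ¬ dumped (Hs F β μ s) (u i) := fun i h => (hu i).1.1 ⟨s, h⟩
  let P := sp F β μ s fun z => ¬ dumped (Hs F β μ s) z ∧ τ < st n z s
  obtain ⟨i, hi, hdep⟩ := exists_dep_aux P ((Finset.range n).image β) (n := n)
    (Finset.card_image_le.trans (by simp)) (fun i => β (u i)) (by
      intro i hi
      refine sp_le ((Ms_le_sp _ _).trans le_sup_left) (fun z hz hP => ?_) (hs1 i hi).2.2
      rcases hP with hP | hP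
      · refine Submodule.mem_sup_right (Submodule.subset_span ?_)
        simp only [Finset.coe_image, Finset.coe_range]
        exact ⟨z, hP, rfl⟩
      · exact Submodule.mem_sup_left (mem_sp hz ⟨hP.1, hP.2⟩))
  have hge : max B n ≤ u i := by simpa using (hu i).2
  obtain ⟨h1, h2, h3⟩ := hs1 i hi
  refine ⟨u i, hum.monotone hi, h1, n, by have := le_max_right B n; omega, hnd i,
    fun k hk => (hB s k hk).trans ((le_max_left B n).trans hge), ?_, ?_⟩
  · rw [h2]; exact h3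
  · rw [h2]
    refine (sup_le (sp_le (Ms_le_sp _ _) fun z hz hP => mem_sp hz ⟨hP.1, Or.inl hP.2⟩)
      (Submodule.span_le.2 ?_) : _ ≤ sp F β μ s _) hdep
    rintro _ ⟨j, hj, rfl⟩
    have hj' : j < i := hj
    obtain ⟨a, b, _⟩ := hs1 j (by omega)
    exact mem_sp a ⟨hnd j, Or.inr ⟨b.symm, hum hj'⟩⟩

theorem DD_of_mem {y : ℕ} (hy : β y ∈ M) : DD F β μ y := by
  by_contra hc
  obtain ⟨s0, hs0⟩ := (hM _).1 hy
  refine no_inf (F := F) (β := β) (μ := μ) (x := y) (s0 := max s0 (y + 1)) fun s hs => ?_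
  have h1 : β y ∈ Ms F μ s := hmono ((le_max_left _ _).trans hs) hs0
  refine ⟨y, le_rfl, by have := le_max_right s0 (y + 1); omega, 0, Nat.succ_pos y,
    fun h => hc ⟨s, h⟩, fun k hk => absurd hk (Nat.not_lt_zero k),
    Ms_le_sp _ _ h1, Ms_le_sp _ _ h1⟩

theorem survive (hex : ∀ N, ∃ v, β v ∉ M ⊔ Vlt F β N) (k : ℕ) :
    ∃ y, ¬ DD F β μ y ∧ k ≤ y := by
  obtain ⟨t0, ht0, v, hv, hvM⟩ := R0_spec hmono hM hex k
  by_contra hc
  push Not at hc
  have claim : ∀ d j, j + d = 2 ^ k → ∀ s ≥ t0, ∀ y < (gfun (Hs F β μ s))^[j] t0,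
      ¬ dumped (Hs F β μ s) y → j ≤ st k y s → β y ∈ M ⊔ Vlt F β k := by
    intro d
    induction d with
    | zero =>
      intro j hj s _ y _ _ h
      have := st_lt k y s
      omega
    | succ d ih =>
      intro j hj s hs y hy hnd hst
      by_cases hD : DD F β μ y
      swap
      · exact Submodule.mem_sup_right (mem_Vlt (hc y hD))
      obtain ⟨s1, p, hp, rfl⟩ := hD
      obtain ⟨_, h2, h3, h4⟩ := mem_Hs hp
      have hst' : s ≤ p.2 := by
        by_contra h
        refine hnd (dumped_mono (not_le.1 h) ?_)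
        rw [h4]; exact dumped_cons.2 (Or.inl rfl)
      obtain ⟨n, _, _, hR, hE1, _⟩ := h3
      have hy1 : p.1 < (gfun (Hs F β μ p.2))^[j] t0 :=
        hy.trans_le (gfun_iter_mono (Hs_subset hst') j le_rfl)
      have hnk : n ≤ k := by
        by_contra h
        have h5 := hR k (not_le.1 h)
        rw [ht0 p.2 (hs.trans hst')] at h5
        have := gfun_iter_le (Hs F β μ p.2) (show j ≤ 2 ^ k by omega) t0
        omega
      refine sp_le ((Ms_le hM _).trans le_sup_left) (fun z hz hP => ?_) hE1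
      rcases hP with hP | ⟨hd, hlt⟩
      · exact Submodule.mem_sup_right (mem_Vlt (hP.trans_le hnk))
      have hzy : p.1 ≠ z := by
        rintro rfl
        omega
      refine ih (j + 1) (by omega) (p.2 + 1) (by omega) z ?_ ?_ ?_
      · rw [Function.iterate_succ_apply']
        have hmem : p ∈ Hs F β μ (p.2 + 1) := by rw [h4]; exact List.mem_cons_self
        have := mem_le_gfun hmem
          (hy1.trans_le (gfun_iter_mono (Hs_subset_succ p.2) j (le_refl t0)))
        omega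
      · rw [h4, dumped_cons]
        rintro (h | h)
        · exact hzy h
        · exact hd h
      · have a := st_lt_of_lt hnk hlt
        have b := st_mono k p.1 hst'
        have c : st k z p.2 ≤ st k z (p.2 + 1) := st_mono k z (Nat.le_succ p.2)
        omega
  apply hvM
  have h1 : β v ∈ Ls F β μ t0 k 0 := Ls_mono hmono k 0 (show v + 1 ≤ t0 from hv) (mem_Ls_zero k v)
  refine sp_le ((Ms_le hM _).trans le_sup_left) (fun z hz hP => ?_) h1
  rcases hP with hP | ⟨hd, _⟩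
  · exact Submodule.mem_sup_right (mem_Vlt hP)
  · exact claim (2 ^ k) 0 (by simp) t0 le_rfl z hz hd (Nat.zero_le _)

theorem cohesive_state (hex : ∀ N, ∃ v, β v ∉ M ⊔ Vlt F β N)
    (hβ : Submodule.span F (Set.range β) = ⊤)
    (hdich : ∀ e a, (∃ N, (⨆ s, Ls F β μ s e a) ≤ M ⊔ Vlt F β N) ∨
      (∃ N, (⨆ s, Ls F β μ s e a) ⊔ Vlt F β N = ⊤)) (e : ℕ) :
    ∃ a, {y | ¬ DD F β μ y ∧ stInf e y ≠ a}.Finite := by
  classical
  have hzero : (⨆ s, Ls F β μ s e 0) = ⊤ := by
    rw [eq_top_iff, ← hβ, Submodule.span_le]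
    rintro _ ⟨z, rfl⟩
    exact le_iSup (fun s => Ls F β μ s e 0) (z + 1) (mem_Ls_zero e z)
  have htop : ¬ ∃ N, (⨆ s, Ls F β μ s e (2 ^ e)) ⊔ Vlt F β N = ⊤ := by
    rintro ⟨N, hN⟩
    obtain ⟨v, hv⟩ := hex (max e N)
    apply hv
    have : (⨆ s, Ls F β μ s e (2 ^ e)) ⊔ Vlt F β N ≤ M ⊔ Vlt F β (max e N) := by
      refine sup_le (iSup_le fun s => ?_) ((Vlt_mono (le_max_right _ _)).trans le_sup_right)
      refine sp_le ((Ms_le hM _).trans le_sup_left) fun z _ hP => ?_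
      rcases hP with hP | ⟨_, hP⟩
      · exact Submodule.mem_sup_right (mem_Vlt (hP.trans_le (le_max_left _ _)))
      · have := st_lt e z s
        omega
    exact this (hN ▸ Submodule.mem_top)
  have hexa : ∃ a, ¬ ∃ N, (⨆ s, Ls F β μ s e a) ⊔ Vlt F β N = ⊤ := ⟨_, htop⟩
  have ha0 : Nat.find hexa ≠ 0 := by
    intro h
    have := Nat.find_spec hexa
    rw [h] at this
    exact this ⟨0, by rw [hzero, top_sup_eq]⟩
  obtain ⟨a, ha⟩ := Nat.exists_eq_succ_of_ne_zero ha0
  have h1 : ∃ N, (⨆ s, Ls F β μ s e a) ⊔ Vlt F β N = ⊤ := by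
    have := Nat.find_min hexa (show a < Nat.find hexa by omega)
    exact not_not.1 this
  have h2 : ∃ N, (⨆ s, Ls F β μ s e (a + 1)) ≤ M ⊔ Vlt F β N := by
    have := Nat.find_spec hexa
    rw [ha] at this
    exact (hdich e (a + 1)).resolve_right this
  obtain ⟨N1, hN1⟩ := h1
  obtain ⟨N2, hN2⟩ := h2
  let N := max e (max N1 N2)
  have heN : e ≤ N := le_max_left _ _
  have h1N : N1 ≤ N := (le_max_left _ _).trans (le_max_right _ _)
  have h2N : N2 ≤ N := (le_max_right _ _).trans (le_max_right _ _)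
  refine ⟨a, ((Set.finite_Iio (2 ^ N)).biUnion fun τ _ =>
    key_finite hmono hM hex N τ).subset ?_⟩
  rintro y ⟨hy, hya⟩
  simp only [Set.mem_iUnion]
  refine ⟨stInf N y, stInf_lt N y, hy, rfl, ?_⟩
  rcases lt_or_gt_of_ne hya with hlt | hgt
  · have : (⨆ s, Ls F β μ s e a) ⊔ Vlt F β N1 ≤ ⨆ s, Ls F β μ s N (stInf N y + 1) := by
      refine sup_le (fun v hv => ?_) ((Vlt_mono h1N).trans (Vlt_le_Linf _ _))
      obtain ⟨s, hs1, hs2, hs3⟩ :=
        ((ev_mem_Ls hmono hv).and ((st_ev e y).and (st_ev N y))).exists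
      refine le_iSup (fun s => Ls F β μ s N (stInf N y + 1)) s ?_
      refine sp_le (Ms_le_sp _ _) (fun z hz hP => ?_) hs1
      rcases hP with hP | ⟨hd, hP⟩
      · exact mem_sp hz (Or.inl (hP.trans_le heN))
      · refine mem_sp hz (Or.inr ⟨hd, ?_⟩)
        have := st_lt_of_lt (y := y) (z := z) (s := s) heN (by omega)
        omega
    exact this (hN1 ▸ Submodule.mem_top)
  · have h3 : β y ∈ ⨆ s, Ls F β μ s e (a + 1) := by
      obtain ⟨s, hs1, hs2⟩ := ((st_ev e y).and (eventually_gt_atTop y)).exists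
      refine le_iSup (fun s => Ls F β μ s e (a + 1)) s ?_
      exact mem_sp hs2 (Or.inr ⟨fun h => hy ⟨s, h⟩, by omega⟩)
    exact (sup_le (M_le_Linf hM _ _) ((Vlt_mono h2N).trans (Vlt_le_Linf _ _))) (hN2 h3)

theorem cohesive (hex : ∀ N, ∃ v, β v ∉ M ⊔ Vlt F β N)
    (hβ : Submodule.span F (Set.range β) = ⊤)
    (hdich : ∀ e a, (∃ N, (⨆ s, Ls F β μ s e a) ≤ M ⊔ Vlt F β N) ∨
      (∃ N, (⨆ s, Ls F β μ s e a) ⊔ Vlt F β N = ⊤)) (e : ℕ) :
    {y | ¬ DD F β μ y ∧ ∃ s, Wst e s y}.Finite ∨ {y | ¬ DD F β μ y ∧ ¬ ∃ s, Wst e s y}.Finite := by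
  obtain ⟨a, ha⟩ := cohesive_state hmono hM hex hβ hdich (e + 1)
  rcases Nat.even_or_odd' a with ⟨b, rfl | rfl⟩
  · left
    refine ha.subset ?_
    rintro y ⟨h1, h2⟩
    refine ⟨h1, ?_⟩
    rw [stInf_succ, if_pos h2]
    omega
  · right
    refine ha.subset ?_
    rintro y ⟨h1, h2⟩
    refine ⟨h1, ?_⟩
    rw [stInf_succ, if_neg h2]
    omega

end main

end Pool.Agent.Lib.MP_a0087d_lc
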